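import Mathlib
import Pool.Agent.R395.CT.Light
import Pool.Agent.R338.CT.Cnt

/-!
# The trivial `3^∞`-Selmer groups among the cubic twists by products of a fixed number of primes

`E_D : y² + D y = x³` over `ℚ`; `D = p₀ p₁ ⋯ p_r` is a product of a prime `p₀` that is `2` modulo `3`
and of `r` primes `p₁, …, p_r` that are `1` modulo `3`, and `D` is not `±1` modulo `9`. The primes
`pᵢ` run through arbitrary disjoint sets `Pᵢ` of primes up to `Xᵢ`. Up to an error
`9^(r+1) 3^(r²) C z^(-1/12) ∏ Xᵢ` (where `z` is at most all the `Xᵢ`) the number of the tuples for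
which `E_D(ℚ)` is finite and `Ш(E_D/ℚ)[3^∞] = 0` is
`(1 - 1/3) (1 - 1/9) ⋯ (1 - 1/3^r)` times the number of all the tuples.

The criterion for a single `D` (`Pool.Agent.R395.CT.triv3_iff`) is joint work (project CT, helper703 and
others), as are the bilinear sums (helper261, helper779), the equidistribution in a box (helper419), the
logarithms (helper333) and the translation (helper710), which were made for the limit over all `D`
(project CX).
-/

set_option autoImplicit false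

open scoped Classical

namespace Pool.Agent.Results.MP_6073f3_nt.CubicTwistsFixedNumber

open Finset

/-- The curve `E_D : y² + D y = x³` over `ℚ`. -/
def E (D : ℕ) : WeierstrassCurve ℚ := { a₁ := 0, a₂ := 0, a₃ := (D : ℚ), a₄ := 0, a₆ := 0 }

/-- `E_D(ℚ)` is finite and `Ш(E_D/ℚ)[3^∞] = 0`. -/
def TrivialThree (D : ℕ) : Prop :=
  Finite (E D).toAffine.Point ∧
    ∀ (n : ℕ) (x : Pool.Agent.TH841.SH.D.Sha (E D)), 3 ^ n • x = 0 → x = 0

/-- `P 0` consists of primes `≡ 2` modulo `3`, the other `P i` of primes `≡ 1` modulo `3`, those of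
`P i` are at most `X i`, the sets are disjoint, and `1 ≤ z ≤ X i` for all `i`. -/
structure Sets {r : ℕ} (P : Fin (r + 1) → Finset ℕ) (X : Fin (r + 1) → ℕ) (z : ℕ) : Prop where
  one_le : 1 ≤ z
  z_le : ∀ i, z ≤ X i
  first : ∀ p ∈ P 0, p % 3 = 2
  others : ∀ i, i ≠ 0 → ∀ p ∈ P i, p % 3 = 1
  primes : ∀ i, ∀ p ∈ P i, p.Prime ∧ p ≤ X i
  disjoint : ∀ i l, i ≠ l → Disjoint (P i) (P l)

/-- The number of the tuples `p` with `p i ∈ P i` for which `D = ∏ p i` is not `±1` modulo `9` and has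
the property `Q`. -/
noncomputable def num {r : ℕ} (P : Fin (r + 1) → Finset ℕ) (Q : ℕ → Prop) : ℕ :=
  {p : Fin (r + 1) → ℕ | (∀ i, p i ∈ P i) ∧ (∏ i, p i) % 9 ≠ 1 ∧ (∏ i, p i) % 9 ≠ 8 ∧
    Q (∏ i, p i)}.ncard

/-- `(1 - 1/3) (1 - 1/9) ⋯ (1 - 1/3^r)`. -/
noncomputable def share (r : ℕ) : ℝ := ∏ i ∈ range r, (1 - 1 / (3 : ℝ) ^ (i + 1))

theorem E_eq (D : ℕ) : Pool.Agent.Y703.CT.EQ (Pool.Agent.Y703.CT.WD D) = E D := by
  unfold Pool.Agent.Y703.CT.EQ Pool.Agent.Y703.CT.WD E WeierstrassCurve.map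
  simp

theorem three_iff (D : ℕ) : TrivialThree D ↔ Pool.Agent.R395.CT.Triv3 D := by
  unfold TrivialThree Pool.Agent.R395.CT.Triv3
  rw [E_eq]

theorem result : ∃ C : ℝ, 0 < C ∧
    ∀ (r : ℕ) (P : Fin (r + 1) → Finset ℕ) (X : Fin (r + 1) → ℕ) (z : ℕ), Sets P X z →
      |(num P TrivialThree : ℝ) - share r * (num P fun _ => True : ℝ)| ≤
        9 ^ (r + 1) * 3 ^ (r ^ 2) * C * (z : ℝ) ^ (-(1 / 12 : ℝ)) * ∏ i, (X i : ℝ) := by
  obtain ⟨C, hC1, hC⟩ := Pool.Agent.R338.CT.main
  refine ⟨C, by linarith, fun r P X z hS => ?_⟩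
  have hS' : Pool.Agent.R338.CT.Sets P X z :=
    ⟨hS.one_le, hS.z_le, hS.first, hS.others, hS.primes, hS.disjoint⟩
  have h1 := hC r P X z hS'
  have e1 : ((Fintype.piFinset P).filter fun p => Pool.Agent.R338.CT.Adm (Pool.Agent.R338.CT.D p) ∧
      Pool.Agent.Y703.CT.NoSplit (Pool.Agent.R338.CT.D p)).card = num P TrivialThree := by
    unfold num
    rw [← Set.ncard_coe_finset]
    congr 1
    ext p
    simp only [coe_filter, Fintype.mem_piFinset, Set.mem_ofPred_eq]
    refine and_congr_right fun hp => ?_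
    have hinj := hS'.inj hp
    have hpr : ∀ i, (p i).Prime := fun i => (hS.primes i _ (hp i)).1
    unfold Pool.Agent.R338.CT.Adm Pool.Agent.R338.CT.D
    rw [and_assoc]
    refine and_congr_right fun h2 => and_congr_right fun h3 => ?_
    rw [three_iff]
    exact (Pool.Agent.R395.CT.triv3_iff (Pool.Agent.R338.CT.cls_D hinj hpr (hS.first _ (hp 0))
      (fun i hi => hS.others i hi _ (hp i)) ⟨h2, h3⟩).2).symm
  have e2 : ((Fintype.piFinset P).filter fun p =>
      Pool.Agent.R338.CT.Adm (Pool.Agent.R338.CT.D p)).card = num P fun _ => True := by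
    unfold num
    rw [← Set.ncard_coe_finset]
    congr 1
    ext p
    simp only [coe_filter, Fintype.mem_piFinset, Set.mem_ofPred_eq, and_true]
    rfl
  rw [e1, e2] at h1
  have e3 : r ^ 2 = r * r := sq r
  rw [e3]
  refine h1.trans (le_of_eq ?_)
  ring

end Pool.Agent.Results.MP_6073f3_nt.CubicTwistsFixedNumber
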