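import Mathlib
import Pool.Agent.R419.CF.Low
import Pool.Agent.R419.CF.Weak

/-!
# Rank zero in the family of the cubic twists `x³ + y³ = D`, ordered by the minimal discriminant

`D` runs over all cube-free numbers prime to `3`, not `±1` modulo `9`, with exactly one prime factor
`≡ 2` modulo `3`, and `E_D : y² + D y = x³` (it is `3`-isogenous to `x³ + y³ = D`).  The curves are
ordered by the absolute value of the minimal discriminant, one of the three orderings of the problem;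
it is `27 D⁴` for `E_D`.

* `E_D(ℚ)` is finite and `Ш(E_D)[3^∞] = 0` if and only if `D` does not split (a condition on cubic
  residues between the prime factors of `D`); then `L(E_D, 1) ≠ 0`, so that the root number is `1`.
* The proportion of the curves with this property in the family tends exactly to
  `∏_{i ≥ 1} (1 - 3^{-i}) = 0.5601...`.
* So for the family `p₀(X)`, the proportion of the curves of rank `0`, is at least
  `∏_{i ≥ 1} (1 - 3^{-i}) - ε` for every `ε > 0` and every large `X`.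

The arithmetic and the squarefree case are joint work of about forty agents, see
`Pool/Agent/Y703/CT/*.lean` and `Pool/Agent/Y703/CX/*.lean`; the extension of the exact proportion to all
cube-free `D` is `Pool/Agent/R419/CF/*.lean` (helper419).
-/

set_option autoImplicit false

open scoped Classical

namespace Pool.Agent.Results.MP_6073f3_nt.CubicTwistsRankZero

/-- the curve `E_D : y² + D y = x³` over `ℚ` -/
def E (D : ℕ) : WeierstrassCurve ℚ := { a₁ := 0, a₂ := 0, a₃ := (D : ℚ), a₄ := 0, a₆ := 0 }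

/-- the absolute value of the minimal discriminant of an elliptic curve `W` over `ℚ`: the smallest
absolute value of the discriminant of a Weierstrass equation `V` with integer coefficients which is
isomorphic to `W` over `ℚ` -/
noncomputable def minDisc (W : WeierstrassCurve ℚ) : ℕ :=
  sInf {n : ℕ | ∃ (V : WeierstrassCurve ℤ) (C : WeierstrassCurve.VariableChange ℚ),
    C • W = V.map (Int.castRingHom ℚ) ∧ n = V.Δ.natAbs}

/-- the class: `D` cube-free, prime to `3`, not `±1` modulo `9`, exactly one prime factor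
congruent to `2` modulo `3` -/
def Class (D : ℕ) : Prop :=
  D ≠ 0 ∧ (∀ p : ℕ, p.Prime → ¬ p ^ 3 ∣ D) ∧ ¬ 3 ∣ D ∧ D % 9 ≠ 1 ∧ D % 9 ≠ 8 ∧
    ∃ q : ℕ, q.Prime ∧ q % 3 = 2 ∧ q ∣ D ∧ ∀ p : ℕ, p.Prime → p ∣ D → p ≠ q → p % 3 = 1

/-- the family: the curves `E_D`, `D` in the class, of minimal discriminant at most `X` in absolute
value, with the property `P` -/
noncomputable def Fam (P : ℕ → Prop) (X : ℕ) : Set ℕ := {D : ℕ | Class D ∧ minDisc (E D) ≤ X ∧ P D}

/-- the proportion of the curves with the property `P` among the curves of the family with minimal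
discriminant at most `X` -/
noncomputable def proportion (P : ℕ → Prop) (X : ℕ) : ℝ :=
  ((Fam P X).ncard : ℝ) / ((Fam (fun _ => True) X).ncard : ℝ)

/-- `a_p = p + 1 - #E_D(𝔽_p)` -/
noncomputable def a (D p : ℕ) : ℤ :=
  (p : ℤ) - (Nat.card {q : ZMod p × ZMod p // q.2 ^ 2 + (D : ZMod p) * q.2 = q.1 ^ 3} : ℤ)

/-- `L` is the L-function `L(E_D, s)`: it is entire and equal to
`∏_p (1 - a_p p^(-s) + [p ∤ Δ] p^(1 - 2 s))⁻¹` for `Re s > 3/2` (the product over all the primes;
`Δ = -27 D⁴` is the minimal discriminant) -/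
def IsL (D : ℕ) (L : ℂ → ℂ) : Prop :=
  Differentiable ℂ L ∧ ∀ s : ℂ, 3 / 2 < s.re →
    HasProd (fun p : Nat.Primes => (1 - (a D p : ℂ) * ((p : ℕ) : ℂ) ^ (-s) +
      (if (p : ℕ) ∣ 3 * D then 0 else ((p : ℕ) : ℂ) ^ (1 - 2 * s)))⁻¹) (L s)

/-- `D` is not a product `d₀ d₁ d₂` of coprime factors, at least two of them different from `1`,
such that `d₁ d₂²`, `d₂ d₀²`, `d₀ d₁²` are cubes modulo the primes dividing `d₀`, `d₁`, `d₂` -/
def NoSplit (D : ℕ) : Prop :=
  ∀ d : ZMod 3 → ℕ, ∏ c, d c = D → (∀ c c', c ≠ c' → Nat.Coprime (d c) (d c')) →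
    (∀ (c : ZMod 3) (p : ℕ), p.Prime → p ∣ d c →
      ∃ x : ℤ, (p : ℤ) ∣ (d (c + 1) : ℤ) * (d (c + 2) : ℤ) ^ 2 - x ^ 3) →
    ∃ c, ∀ c', c' ≠ c → d c' = 1

/-- `E_D(ℚ)` is finite and `Ш(E_D/ℚ)[3^∞] = 0` -/
def TrivialThree (D : ℕ) : Prop :=
  Finite (E D).toAffine.Point ∧
    ∀ (n : ℕ) (x : Pool.Agent.TH841.SH.D.Sha (E D)), 3 ^ n • x = 0 → x = 0

/-- the rank of `E_D(ℚ)` -/
noncomputable def rank (D : ℕ) : ℕ := Module.finrank ℤ (E D).toAffine.Point

/-- rank zero and analytic rank zero for `E_D`, and finitely many rational points on the isogenous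
curve `y² = x³ - 432 D²` (the cubic `x³ + y³ = D`) -/
def RankZero (D : ℕ) : Prop :=
  rank D = 0 ∧ Finite (E D).toAffine.Point ∧ (∃ L : ℂ → ℂ, IsL D L) ∧
    (∀ L : ℂ → ℂ, IsL D L → L 1 ≠ 0) ∧
    {q : ℚ × ℚ | q.2 ^ 2 = q.1 ^ 3 - 432 * (D : ℚ) ^ 2}.Finite

open Pool.Agent.Y703.CT (WD EQ)

theorem E_eq (D : ℕ) : EQ (WD D) = E D := by
  unfold Pool.Agent.Y703.CT.EQ Pool.Agent.Y703.CT.WD E WeierstrassCurve.map
  simp

theorem three_iff (D : ℕ) : TrivialThree D ↔ Pool.Agent.Y703.CT.Triv3 D := by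
  unfold TrivialThree Pool.Agent.Y703.CT.Triv3
  rw [E_eq]

theorem class_iff (D : ℕ) : Class D ↔ Pool.Agent.Y703.CT.Cls D := by
  unfold Class Pool.Agent.Y703.CT.Cls Pool.Agent.Y703.CT.Base
  constructor
  · rintro ⟨h1, h2, h3, h4, h5, h6⟩
    exact ⟨⟨h1, h3, h2⟩, h4, h5, h6⟩
  · rintro ⟨⟨h1, h3, h2⟩, h4, h5, h6⟩
    exact ⟨h1, h2, h3, h4, h5, h6⟩

theorem a_eq (D p : ℕ) : Pool.Agent.W97.MT.ap (WD D) p = a D p := by
  unfold Pool.Agent.W97.MT.ap Pool.Agent.W97.MT.affCount a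
  have h : ∀ q : ZMod p × ZMod p,
      (((WD D).map (Int.castRingHom (ZMod p))).toAffine.Equation q.1 q.2) ↔
        q.2 ^ 2 + (D : ZMod p) * q.2 = q.1 ^ 3 := by
    intro q
    rw [Pool.Agent.Y703.CX.eqn_iff]
    simp
  simp only [h]

theorem disc_dvd {p : ℕ} (hp : p.Prime) (D : ℕ) : (p : ℤ) ∣ (WD (D : ℤ)).Δ ↔ p ∣ 3 * D := by
  have hpi : Prime (p : ℤ) := Nat.prime_iff_prime_int.1 hp
  rw [Pool.Agent.Y703.CX.WD_disc]
  have e : (-27 * (D : ℤ) ^ 4) = -(3 ^ 3 * (D : ℤ) ^ 4) := by ring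
  have e2 : p ∣ 3 * D ↔ (p : ℤ) ∣ 3 * (D : ℤ) := by
    rw [← Int.natCast_dvd_natCast]
    push_cast
    exact Iff.rfl
  rw [e, dvd_neg, e2]
  constructor
  · intro h
    rcases hpi.dvd_or_dvd h with h | h
    · exact Dvd.dvd.mul_right (hpi.dvd_of_dvd_pow h) _
    · exact Dvd.dvd.mul_left (hpi.dvd_of_dvd_pow h) _
  · intro h
    rcases hpi.dvd_or_dvd h with h | h
    · exact Dvd.dvd.mul_right (dvd_pow h (by norm_num)) _
    · exact Dvd.dvd.mul_left (dvd_pow h (by norm_num)) _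

theorem isL_iff (D : ℕ) (f : ℂ → ℂ) : Pool.Agent.Y703.CT.IsL (WD D) f ↔ IsL D f := by
  unfold Pool.Agent.Y703.CT.IsL IsL
  have e1 : (fun (s : ℂ) (p : Nat.Primes) => (1 - (a D p : ℂ) * ((p : ℕ) : ℂ) ^ (-s) +
      (if (p : ℕ) ∣ 3 * D then 0 else ((p : ℕ) : ℂ) ^ (1 - 2 * s)))⁻¹) =
      fun (s : ℂ) (p : Nat.Primes) => (1 - (Pool.Agent.W97.MT.ap (WD D) p : ℂ) *
        ((p : ℕ) : ℂ) ^ (-s) +
      (if ((p : ℕ) : ℤ) ∣ (WD D).Δ then 0 else ((p : ℕ) : ℂ) ^ (1 - 2 * s)))⁻¹ := by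
    funext s p
    rw [a_eq]
    have h := disc_dvd p.2 D
    by_cases hd : (p : ℕ) ∣ 3 * D
    · rw [if_pos hd, if_pos (h.2 hd)]
    · rw [if_neg hd, if_neg (fun h' => hd (h.1 h'))]
  refine and_congr_right fun _ => forall_congr' fun s => imp_congr_right fun _ => ?_
  have := congrFun e1 s
  rw [this]

theorem isL_unique {D : ℕ} {L M : ℂ → ℂ} (hL : IsL D L) (hM : IsL D M) : L = M := by
  have h1 : AnalyticOnNhd ℂ L Set.univ := fun z _ => hL.1.analyticAt z
  have h2 : AnalyticOnNhd ℂ M Set.univ := fun z _ => hM.1.analyticAt z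
  refine h1.eq_of_eventuallyEq h2 (z₀ := 2) ?_
  have h3 : {s : ℂ | 3 / 2 < s.re} ∈ nhds (2 : ℂ) :=
    (isOpen_lt continuous_const Complex.continuous_re).mem_nhds (by
      show (3 : ℝ) / 2 < (2 : ℂ).re
      norm_num)
  filter_upwards [h3] with s hs
  exact (hL.2 s hs).unique (hM.2 s hs)

theorem min_disc {D : ℕ} (hD : Class D) : minDisc (E D) = 27 * D ^ 4 := by
  obtain ⟨hmin, -⟩ := Pool.Agent.Y703.CT.fin_all ((class_iff D).1 hD)
  have hd : (WD D).Δ.natAbs = 27 * D ^ 4 := by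
    rw [Pool.Agent.Y703.CX.WD_disc]
    rw [Int.natAbs_mul, Int.natAbs_pow, Int.natAbs_natCast]
    rfl
  unfold minDisc
  apply le_antisymm
  · refine Nat.sInf_le ⟨WD D, 1, ?_, hd.symm⟩
    rw [one_smul]
    exact (E_eq D).symm
  · refine le_csInf ⟨_, WD D, 1, by rw [one_smul]; exact (E_eq D).symm, rfl⟩ ?_
    rintro n ⟨V, C, hC, rfl⟩
    rw [← hd]
    have h1 := hmin.2 V C (by rw [← hC, ← E_eq])
    rw [Int.abs_eq_natAbs, Int.abs_eq_natAbs] at h1
    exact_mod_cast h1

theorem rank_zero {D : ℕ} (hD : Class D) (h : TrivialThree D) : RankZero D := by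
  have hC := (class_iff D).1 hD
  have hT := (three_iff D).1 h
  obtain ⟨-, f, hf, u, hu, -, h1, -⟩ := Pool.Agent.Y703.CT.fin_all hC
  have hU := h1.2 hT
  have hf1 := Pool.Agent.Y703.CX.val_ne hC hT.1 hU.1 hu
  have hD0 : (D : ℤ) ≠ 0 := by exact_mod_cast hC.1.1
  refine ⟨Pool.Agent.Y687.finrank_zero_of_finite h.1, h.1, ⟨f, (isL_iff D f).1 hf⟩,
    fun L hL => ?_, ?_⟩
  · rw [isL_unique hL ((isL_iff D f).1 hf)]
    exact hf1
  · refine (Pool.Agent.Y703.CX.fin_pts hD0 hT.1).subset fun q hq => ?_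
    have hq : q.2 ^ 2 = q.1 ^ 3 - 432 * (D : ℚ) ^ 2 := hq
    show q.2 ^ 2 = q.1 ^ 3 + ((0 : ℤ) : ℚ) * q.1 + ((-432 * (D : ℤ) ^ 2 : ℤ) : ℚ)
    rw [hq]
    push_cast
    ring

/-- the largest `Y` with `27 Y⁴ ≤ X` -/
noncomputable def root (X : ℕ) : ℕ := Nat.findGreatest (fun Y => 27 * Y ^ 4 ≤ X) X

theorem le_root (X D : ℕ) : D ≤ root X ↔ 27 * D ^ 4 ≤ X := by
  unfold root
  constructor
  · intro h
    have h1 : 27 * (Nat.findGreatest (fun Y => 27 * Y ^ 4 ≤ X) X) ^ 4 ≤ X := by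
      have h0 : 27 * 0 ^ 4 ≤ X := by simp
      exact Nat.findGreatest_spec (P := fun Y => 27 * Y ^ 4 ≤ X) (Nat.zero_le X) h0
    exact (Nat.mul_le_mul_left 27 (Nat.pow_le_pow_left h 4)).trans h1
  · intro h
    refine Nat.le_findGreatest ?_ h
    rcases Nat.eq_zero_or_pos D with h0 | h0
    · rw [h0]; exact Nat.zero_le X
    · have h1 : D ≤ D ^ 4 := Nat.le_self_pow (by norm_num) D
      have h2 : D ^ 4 ≤ 27 * D ^ 4 := Nat.le_mul_of_pos_left _ (by norm_num)
      exact h1.trans (h2.trans h)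

theorem root_tendsto : Filter.Tendsto root Filter.atTop Filter.atTop := by
  refine Filter.tendsto_atTop.2 fun b => ?_
  filter_upwards [Filter.eventually_ge_atTop (27 * b ^ 4)] with X hX
  exact (le_root X b).2 hX

theorem fam_eq (P : ℕ → Prop) (X : ℕ) :
    Fam P X = (((Finset.Icc 1 (root X)).filter fun D => Class D ∧ P D : Finset ℕ) : Set ℕ) := by
  ext D
  rw [Finset.coe_filter]
  constructor
  · rintro ⟨h1, h2, h3⟩
    rw [min_disc h1] at h2
    exact ⟨Finset.mem_Icc.2 ⟨Nat.pos_of_ne_zero h1.1, (le_root X D).2 h2⟩, h1, h3⟩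
  · rintro ⟨h1, h2, h3⟩
    refine ⟨h2, ?_, h3⟩
    rw [min_disc h2]
    exact (le_root X D).1 (Finset.mem_Icc.1 h1).2

theorem fam_card (P : ℕ → Prop) (X : ℕ) :
    (Fam P X).ncard = ((Finset.Icc 1 (root X)).filter fun D => Class D ∧ P D).card := by
  rw [fam_eq, Set.ncard_coe_finset]

theorem result :
    (∀ X : ℕ, (Fam (fun _ => True) X).Finite) ∧
    Filter.Tendsto (fun X : ℕ => (Fam (fun _ => True) X).ncard) Filter.atTop Filter.atTop ∧
    (∀ D : ℕ, Class D → minDisc (E D) = 27 * D ^ 4 ∧ (TrivialThree D ↔ NoSplit D) ∧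
      (TrivialThree D → RankZero D)) ∧
    (0.56 : ℝ) < ∏' i : ℕ, (1 - (1 / 3 : ℝ) ^ (i + 1)) ∧
    Filter.Tendsto (fun X : ℕ => proportion TrivialThree X) Filter.atTop
      (nhds (∏' i : ℕ, (1 - (1 / 3 : ℝ) ^ (i + 1)))) ∧
    ∀ ε : ℝ, 0 < ε → ∃ X₀ : ℕ, ∀ X : ℕ, X₀ ≤ X →
      (∏' i : ℕ, (1 - (1 / 3 : ℝ) ^ (i + 1))) - ε ≤ proportion RankZero X := by
  have hcrit : ∀ D : ℕ, Class D → (TrivialThree D ↔ NoSplit D) := by
    intro D hC
    have hC' := (class_iff D).1 hC
    obtain ⟨-, f, -, u, -, -, -, h2⟩ := Pool.Agent.Y703.CT.fin_all hC'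
    exact (three_iff D).trans h2
  have e2 : ∀ X : ℕ, ((Finset.Icc 1 X).filter fun D => Class D ∧ True) =
      (Finset.Icc 1 X).filter fun D => Pool.Agent.Y703.CT.Cls D := by
    intro X
    refine Finset.filter_congr fun D _ => ?_
    rw [class_iff, and_true]
  have hlim : Filter.Tendsto (fun X : ℕ =>
        (((Finset.Icc 1 X).filter fun D => Class D ∧ TrivialThree D).card : ℝ) /
        (((Finset.Icc 1 X).filter fun D => Class D ∧ True).card : ℝ)) Filter.atTop
      (nhds (∏' i : ℕ, (1 - (1 / 3 : ℝ) ^ (i + 1)))) := by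
    have h := Pool.Agent.R419.CF.t_FIN
    unfold Pool.Agent.Y703.CX.c3 at h
    have e1 : ∀ X : ℕ, (Finset.Icc 1 X).filter (fun D => Class D ∧ TrivialThree D) =
        (Finset.Icc 1 X).filter fun D => Pool.Agent.Y703.CT.Cls D ∧
          Pool.Agent.Y703.CT.NoSplit D := by
      intro X
      refine Finset.filter_congr fun D _ => ?_
      rw [← class_iff]
      exact and_congr_right fun hC => hcrit D hC
    simp only [e1, e2]
    exact h
  have hlim2 : Filter.Tendsto (fun X : ℕ => proportion TrivialThree X) Filter.atTop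
      (nhds (∏' i : ℕ, (1 - (1 / 3 : ℝ) ^ (i + 1)))) := by
    have h := hlim.comp root_tendsto
    refine h.congr fun X => ?_
    unfold proportion
    rw [fam_card, fam_card]
    simp only [Function.comp_apply]
    congr!
  have hinf : Filter.Tendsto (fun X : ℕ => (Fam (fun _ => True) X).ncard) Filter.atTop
      Filter.atTop := by
    have h1 : Filter.Tendsto (fun X : ℕ =>
        ((Finset.Icc 1 X).filter fun D => Class D ∧ True).card) Filter.atTop Filter.atTop := by
      obtain ⟨c, hc, X₀, h⟩ := Pool.Agent.R419.CF.low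
      rw [← tendsto_natCast_atTop_iff (R := ℝ)]
      have h2 : Filter.Tendsto (fun X : ℕ => c * X / Real.sqrt (Real.log X)) Filter.atTop
          Filter.atTop := by
        have h3 : Filter.Tendsto (fun X : ℕ => c * Real.sqrt X) Filter.atTop Filter.atTop :=
          (Real.tendsto_sqrt_atTop.comp tendsto_natCast_atTop_atTop).const_mul_atTop hc
        refine Filter.tendsto_atTop_mono' _ ?_ h3
        filter_upwards [Filter.eventually_ge_atTop 2] with X hX
        have hX1 : (1 : ℝ) < X := by exact_mod_cast hX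
        have hl : 0 < Real.log X := Real.log_pos hX1
        have hs : 0 < Real.sqrt (Real.log X) := Real.sqrt_pos.2 hl
        rw [le_div_iff₀ hs, mul_assoc, ← Real.sqrt_mul (by positivity)]
        refine mul_le_mul_of_nonneg_left ?_ hc.le
        rw [Real.sqrt_le_left (by positivity)]
        have h4 : Real.log X ≤ X := (Real.log_le_sub_one_of_pos (by positivity)).trans (by linarith)
        nlinarith
      refine Filter.tendsto_atTop_mono' _ ?_ h2
      filter_upwards [Filter.eventually_ge_atTop X₀] with X hX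
      rw [e2]
      exact h X hX
    refine (h1.comp root_tendsto).congr fun X => ?_
    rw [fam_card]
    simp only [Function.comp_apply]
    congr!
  refine ⟨fun X => ?_, hinf, fun D hD => ⟨min_disc hD, hcrit D hD, rank_zero hD⟩,
    Pool.Agent.Y461.CX.t_C3.2.2.2, hlim2, ?_⟩
  · rw [fam_eq]
    exact Finset.finite_toSet _
  · intro ε hε
    obtain ⟨X₀, h⟩ := (Metric.tendsto_atTop.1 hlim2) ε hε
    refine ⟨X₀, fun X hX => ?_⟩
    have h2 := h X hX
    rw [Real.dist_eq, abs_lt] at h2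
    have h3 := h2.1
    have h4 : proportion TrivialThree X ≤ proportion RankZero X := by
      unfold proportion
      refine div_le_div_of_nonneg_right ?_ (Nat.cast_nonneg _)
      rw [fam_card, fam_card]
      norm_cast
      refine Finset.card_le_card fun D hD => ?_
      obtain ⟨a1, a3, a4⟩ := Finset.mem_filter.1 hD
      exact Finset.mem_filter.2 ⟨a1, a3, rank_zero a3 a4⟩
    linarith

end Pool.Agent.Results.MP_6073f3_nt.CubicTwistsRankZero
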