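import Pool.Agent.R413.MQ.Bin
import Pool.Agent.Results.MP_03e5d0_nt.FullClassX49

/-!
# The binomial law and the law of large numbers for the curves of rank zero among many twists

`D ≥ 1` runs over all squarefree numbers with all prime factors `≡ 1 mod 4`, and `E_D` is the quadratic
twist by `D` of `X_0(49) : y² + x y = x³ - x² - 2 x - 1`. For `M` and `D` in the class the squarefree part
`tw M D` of `M D` is in the class, and `E_{tw M D}` is the twist by `D` of `E_M`. Let `T` be a finite
set of numbers of the class, of size `n`, and let `count T D` be the number of the `M ∈ T` such that the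
twist by `D` of `E_M` has rank zero and `Ш[2] = 0`; then its analytic rank is zero as well. As `D` runs
over the class, ordered by size:
* `count T D` has exactly the binomial law `B(n, c)` in the limit, `c = ∏_{i ≥ 0} (1 - 2^{-(2i+1)}) =
  0.4194...`;
* the proportion of the `D` with `|count T D / n - c| ≥ ε` is at most `c (1 - c) / (ε² n)` in the limit;
* for every `ε > 0` there is `n₀` such that for every `T` with at least `n₀` elements and for all but a
  proportion `≤ ε` of the `D ≤ X`, `X ≥ X₀(T)`, at least `(c - ε) |T|` of the `|T|` twists by `D` of the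
  curves `E_M`, `M ∈ T`, have rank zero and analytic rank zero.
-/

set_option autoImplicit false

open Filter Topology

namespace Pool.Agent.Results.MP_6073f3_nt.GaussianTwistFamilies

open Pool.Agent.Results.MP_4a9ea6_nt.TwoPartTwistsX49 (E twist)
open Pool.Agent.Results.MP_92892c_nt.FullClassTwoPartX49 (Family RankZeroShaTwo num)
open Pool.Agent.Results.MP_03e5d0_nt.FullClassX49 (tw AnalyticRankZero c)

/-- the twist by `D` of `E_M` has rank zero and analytic rank zero -/
def Zero (M D : ℕ) : Prop := Finite (E (tw M D)).toAffine.Point ∧ AnalyticRankZero (tw M D)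

open Classical in
/-- the number of the `M ∈ T` such that the twist by `D` of `E_M` has finitely many rational points and
no element of order two in `Ш` -/
noncomputable def count (T : Finset ℕ) (D : ℕ) : ℕ :=
  (T.filter fun M => RankZeroShaTwo (tw M D)).card

open Classical in
/-- the number of the `M ∈ T` such that the twist by `D` of `E_M` has rank zero and analytic rank zero -/
noncomputable def zeros (T : Finset ℕ) (D : ℕ) : ℕ := (T.filter fun M => Zero M D).card

section proof

open Pool.Agent.R413.SQ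
open Pool.Agent.R413.MQ.Bin (cnt N law_eq lln cnt_mono cnt_congr)
open Pool.Agent.Results.MP_4a9ea6_nt.TwoPartTwistsX49 (Adm mat core)
open Pool.Agent.Results.MP_03e5d0_nt.FullClassX49 (sel_det an_of num_num)

theorem hc : 0.4194 < c ∧ c < 0.4195 :=
  ⟨Pool.Agent.Y948.CQ.t_C2.2.2.2.1, Pool.Agent.Y948.CQ.t_C2.2.2.2.2⟩

theorem zero_of {D : ℕ} (h : Family D) (h1 : RankZeroShaTwo D) :
    Finite (E D).toAffine.Point ∧ AnalyticRankZero D :=
  ⟨h1.1, an_of h ((sel_det h).1 h1)⟩

theorem num_cnt (Q : ℕ → Prop) (X : ℕ) : num Q X = cnt Family Q X := by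
  classical
  unfold num cnt
  congr 1

theorem count_N (T : Finset ℕ) (D : ℕ) :
    count T D = N T (fun M D => RankZeroShaTwo (tw M D)) D := by
  classical
  unfold count N
  congr 1

/-- the joint law -/
theorem joint {T : Finset ℕ} (hT : ∀ M ∈ T, Family M) : ∀ V ⊆ T, Tendsto (fun X : ℕ =>
      (cnt Family (fun D => ∀ M ∈ T, (RankZeroShaTwo (tw M D) ↔ M ∈ V)) X : ℝ) /
        (cnt Family (fun _ => True) X : ℝ)) atTop
      (𝓝 (c ^ V.card * (1 - c) ^ (T.card - V.card))) := by
  intro V hV
  have h := Pool.Agent.R413.SQ.Joint.law hT hV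
  have hcc : Pool.Agent.Y703.CQ.c2 = c := rfl
  rw [hcc, Finset.card_sdiff_of_subset hV] at h
  refine h.congr fun X => ?_
  rw [← num_cnt, ← num_cnt, num_num (Q := fun D => ∀ M ∈ T, (RankZeroShaTwo (tw M D) ↔ M ∈ V))
    (R := fun D => ∀ M ∈ T, ((mat (Joint.tw M D)).det ≠ 0 ↔ M ∈ V))
    (fun D hD => forall₂_congr fun M hM =>
      iff_congr (sel_det (Joint.adm_tw (hT M hM) hD)) Iff.rfl) X,
    num_num (Q := fun _ => True) (R := fun _ => True) (fun _ _ => Iff.rfl) X]

end proof

theorem result :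
    (∀ M D : ℕ, Family M → Family D → Family (tw M D) ∧ M * D = tw M D * Nat.gcd M D ^ 2) ∧
    (∀ D : ℕ, Family D → RankZeroShaTwo D → Finite (E D).toAffine.Point ∧ AnalyticRankZero D) ∧
    (∀ T : Finset ℕ, (∀ M ∈ T, Family M) → ∀ k : ℕ,
      Tendsto (fun X : ℕ => (num (fun D => count T D = k) X : ℝ) / (num (fun _ => True) X : ℝ)) atTop
        (𝓝 ((T.card.choose k : ℝ) * c ^ k * (1 - c) ^ (T.card - k)))) ∧
    (∀ T : Finset ℕ, (∀ M ∈ T, Family M) → T.Nonempty → ∀ ε δ : ℝ, 0 < ε → 0 < δ →
      ∃ X₀ : ℕ, ∀ X : ℕ, X₀ ≤ X →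
        (num (fun D => ε ≤ |(count T D : ℝ) / T.card - c|) X : ℝ) ≤
          (c * (1 - c) / (ε ^ 2 * T.card) + δ) * (num (fun _ => True) X : ℝ)) ∧
    (∀ ε : ℝ, 0 < ε → ∃ n₀ : ℕ, ∀ T : Finset ℕ, (∀ M ∈ T, Family M) → n₀ ≤ T.card →
      ∃ X₀ : ℕ, ∀ X : ℕ, X₀ ≤ X →
        (1 - ε) * (num (fun _ => True) X : ℝ) ≤
          (num (fun D => (c - ε) * T.card ≤ (zeros T D : ℝ)) X : ℝ)) ∧
    0.4194 < c ∧ c < 0.4195 := by
  obtain ⟨hc1, hc2⟩ := hc
  have hL : ∀ T : Finset ℕ, (∀ M ∈ T, Family M) → T.Nonempty → ∀ ε δ : ℝ, 0 < ε → 0 < δ →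
      ∃ X₀ : ℕ, ∀ X : ℕ, X₀ ≤ X →
        (num (fun D => ε ≤ |(count T D : ℝ) / T.card - c|) X : ℝ) ≤
          (c * (1 - c) / (ε ^ 2 * T.card) + δ) * (num (fun _ => True) X : ℝ) := by
    intro T hT hne ε δ hε hδ
    obtain ⟨X₀, h⟩ := Pool.Agent.R413.MQ.Bin.lln hne (by linarith) (by linarith) (joint hT) hε hδ
    refine ⟨X₀, fun X hX => ?_⟩
    have h1 := h X hX
    simp only [num_cnt, count_N]
    exact h1
  refine ⟨fun M D hM hD => ⟨Pool.Agent.R413.SQ.Joint.adm_tw hM hD,
    (Pool.Agent.R413.SQ.Joint.ac_tw hM hD).2⟩, fun D h h1 => zero_of h h1, fun T hT k => ?_, hL,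
    fun ε hε => ?_, hc1, hc2⟩
  · have h := Pool.Agent.R413.MQ.Bin.law_eq (joint hT) k
    simp only [num_cnt, count_N]
    exact h
  · obtain ⟨n₀, hn₀⟩ := exists_nat_gt (2 * (c * (1 - c)) / (ε ^ 3))
    refine ⟨n₀ + 1, fun T hT hn => ?_⟩
    have hne : T.Nonempty := Finset.card_pos.1 (by omega)
    have hTn : (n₀ : ℝ) < T.card := by exact_mod_cast (by omega : n₀ < T.card)
    have hT0 : (0 : ℝ) < T.card := by exact_mod_cast Finset.card_pos.2 hne
    obtain ⟨X₀, h⟩ := hL T hT hne ε (ε / 2) hε (by linarith)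
    refine ⟨X₀, fun X hX => ?_⟩
    have h1 := h X hX
    have h2 : c * (1 - c) / (ε ^ 2 * T.card) ≤ ε / 2 := by
      have h3 := hn₀.trans hTn
      rw [div_lt_iff₀ (by positivity)] at h3
      rw [div_le_iff₀ (by positivity)]
      nlinarith
    have hA : (0 : ℝ) ≤ (num (fun _ => True) X : ℝ) := Nat.cast_nonneg _
    have h4 : (num (fun D => ε ≤ |(count T D : ℝ) / T.card - c|) X : ℝ) ≤
        ε * (num (fun _ => True) X : ℝ) :=
      h1.trans (mul_le_mul_of_nonneg_right (by linarith) hA)
    have h5 : (num (fun _ => True) X : ℕ) ≤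
        num (fun D => ε ≤ |(count T D : ℝ) / T.card - c|) X +
          num (fun D => (c - ε) * T.card ≤ (zeros T D : ℝ)) X := by
      rw [num_cnt, num_cnt, num_cnt]
      refine Pool.Agent.R413.MQ.Bin.cnt_union (fun D hD => ?_) X
      by_cases h6 : ε ≤ |(count T D : ℝ) / T.card - c|
      · exact Or.inl h6
      · refine Or.inr ?_
        rw [not_le] at h6
        have h7 := (abs_lt.1 h6).1
        have h8 : (c - ε) * T.card ≤ (count T D : ℝ) := by
          have h9 : c - ε ≤ (count T D : ℝ) / T.card := by linarith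
          rwa [le_div_iff₀ hT0] at h9
        have h9 : count T D ≤ zeros T D := by
          classical
          unfold count zeros
          refine Finset.card_le_card fun M hM => ?_
          rw [Finset.mem_filter] at hM ⊢
          exact ⟨hM.1, zero_of (Pool.Agent.R413.SQ.Joint.adm_tw (hT M hM.1) hD) hM.2⟩
        have h10 : (count T D : ℝ) ≤ zeros T D := by exact_mod_cast h9
        exact h8.trans h10
    have h6 : (num (fun _ => True) X : ℝ) ≤
        (num (fun D => ε ≤ |(count T D : ℝ) / T.card - c|) X : ℝ) +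
          (num (fun D => (c - ε) * T.card ≤ (zeros T D : ℝ)) X : ℝ) := by exact_mod_cast h5
    linarith

end Pool.Agent.Results.MP_6073f3_nt.GaussianTwistFamilies
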