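import Pool.Agent.R413.CK.Sj
import Pool.Agent.Results.MP_03e5d0_nt.FullClassX49

/-!
# The `2^∞`-Selmer groups over `ℚ` in the family of the quadratic twists of `X_0(49)`

`D ≥ 1` runs over all squarefree numbers with all prime factors `≡ 1 mod 4`, and `E_D` is the quadratic
twist by `D` of `X_0(49) : y² + x y = x³ - x² - 2 x - 1`. For `M` and `D` in the class the squarefree part
`tw M D` of `M D` is in the class, and `E_{tw M D}` is the twist by `D` of `E_M`.

`SelInf D = ker (H¹(ℚ, E_D[2^∞]) → ∏ H¹(ℚ_v, E_D))`, defined by cocycles, is an extension of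
`Ш(E_D)[2^∞]` by `E_D(ℚ) ⊗ ℚ₂/ℤ₂`, and `dimInf D` is the dimension over `𝔽₂` of its subgroup of the
elements of order `1` and `2`, the number of the cyclic and quasicyclic summands of `SelInf D`.
`corank D` is the corank of the matrix `mat D` over `𝔽₂`, given by Legendre symbols and quartic residue
symbols of the prime factors of `D`. For all `D` of the class, with no hypothesis:
* `2 ^ dimInf D = #SelInf D [2] = 2 ^ rank E_D(ℚ) #Ш(E_D)[2]`;
* `corank D ≤ dimInf D ≤ 2 corank D`, and `SelInf D = 0` if and only if `corank D = 0`;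
* if `(ℚ₂/ℤ₂)^q` embeds in `SelInf D` then `q ≤ dimInf D`.

Statistics, for `law r = c / ∏_{i < r} (2^{i+1} - 1)`, `c = ∏_{i ≥ 0} (1 - 2^{-(2i+1)}) = 0.4194...`, and
any finite set `T` of numbers of the class, as `D` runs over the class ordered by size:
* the proportion of the `D` such that `SelInf (tw M D) = 0` for all `M ∈ T` tends to `c ^ #T`;
* the lower density of the `D` with `dimInf (tw M D) ≤ 2 ρ(M)` for all `M ∈ T` is at least
  `∏_{M ∈ T} ∑_{i ≤ ρ(M)} law i`, and that of the `D` with `dimInf (tw M D) ≥ ρ(M)` for all `M ∈ T` is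
  at least `∏_{M ∈ T} (1 - ∑_{i < ρ(M)} law i) > 0`;
* the averages of all powers of `dimInf (tw M D)` are bounded, with explicit bounds; in particular the
  average of `dimInf (tw M D)`, the rank plus the dimension of `Ш[2]`, is between `0.764` and `1.5292` for
  large `X`.
-/

set_option autoImplicit false

open Filter Topology

namespace Pool.Agent.Results.MP_6073f3_nt.TwoInfinitySelmerX49

open Pool.Agent.TH841.SH.D (Pt act Gal Coch Pruf)
open Pool.Agent.TH841.NF.D (Sha IsShaCoc)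
open Pool.Agent.Results.MP_4a9ea6_nt.TwoPartTwistsX49 (E split mat)
open Pool.Agent.Results.MP_92892c_nt.FullClassTwoPartX49 (Family)
open Pool.Agent.Results.MP_03e5d0_nt.FullClassX49 (tw c)

/-- The group of the continuous cocycles of the absolute Galois group of `K` with values in `W[2^∞]`
that are coboundaries in `W` at all the places of `K`. -/
def Cocycles {K : Type} [Field K] [NumberField K] (W : WeierstrassCurve K) :
    AddSubgroup (Coch W) where
  carrier := {f | IsShaCoc W f ∧ ∀ σ, ∃ m : ℕ, 2 ^ m • f σ = 0}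
  zero_mem' := (Pool.Agent.R413.CK.cocI W).zero_mem'
  add_mem' := (Pool.Agent.R413.CK.cocI W).add_mem'
  neg_mem' := (Pool.Agent.R413.CK.cocI W).neg_mem'

/-- The group of the coboundaries of the points of `W[2^∞]`. -/
def Coboundaries {K : Type} [Field K] [NumberField K] (W : WeierstrassCurve K) :
    AddSubgroup (Coch W) where
  carrier := {f | ∃ P : Pt W (AlgebraicClosure K), (∃ m : ℕ, 2 ^ m • P = 0) ∧
    ∀ σ : Gal K, f σ = act W σ.toAlgHom P - P}
  zero_mem' := (Pool.Agent.R413.CK.cobI W).zero_mem'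
  add_mem' := (Pool.Agent.R413.CK.cobI W).add_mem'
  neg_mem' := (Pool.Agent.R413.CK.cobI W).neg_mem'

/-- The `2^∞`-Selmer group of `W` over `K`: the kernel of `H¹(K, W[2^∞]) → ∏ H¹(K_v, W)`. -/
def Sel {K : Type} [Field K] [NumberField K] (W : WeierstrassCurve K) : Type :=
  Cocycles W ⧸ (Coboundaries W).addSubgroupOf (Cocycles W)

/-- the group law -/
noncomputable instance Sel.group {K : Type} [Field K] [NumberField K] (W : WeierstrassCurve K) :
    AddCommGroup (Sel W) :=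
  @QuotientAddGroup.Quotient.addCommGroup (Cocycles W) _
    ((Coboundaries W).addSubgroupOf (Cocycles W))

/-- The `2^∞`-Selmer group of `E_D` over `ℚ`. -/
abbrev SelInf (D : ℕ) : Type := Sel (E D)

/-- the dimension over `𝔽₂` of the group of the elements of order `1` and `2` of `SelInf D` -/
noncomputable def dimInf (D : ℕ) : ℕ := Nat.log 2 (Nat.card {x : SelInf D // x + x = 0})

/-- the rank of the group of the rational points of `E_D` -/
noncomputable def rank (D : ℕ) : ℕ := Module.finrank ℤ (E D).toAffine.Point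

/-- the corank of the matrix `mat D` over the field with two elements -/
noncomputable def corank (D : ℕ) : ℕ := (split D).card - (mat D).rank

/-- the law of the coranks -/
noncomputable def law (r : ℕ) : ℝ := c / ∏ i ∈ Finset.range r, ((2 : ℝ) ^ (i + 1) - 1)

open Classical in
/-- the numbers of the class up to `X` -/
noncomputable def upTo (X : ℕ) : Finset ℕ := (Finset.Icc 1 X).filter Family

open Classical in
/-- the proportion of the numbers with the property `P` among those of the class up to `X` -/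
noncomputable def proportion (P : ℕ → Prop) (X : ℕ) : ℝ :=
  (((upTo X).filter P).card : ℝ) / (upTo X).card

/-- the average of `f` over the numbers of the class up to `X` -/
noncomputable def avg (f : ℕ → ℝ) (X : ℕ) : ℝ := (∑ D ∈ upTo X, f D) / (upTo X).card

section proof

open Pool.Agent.R413.SQ
open Pool.Agent.R413.CK (mr mr_pr mr_hasSum mu mu_bounds rank_corank corank_zero clsX num_clsX
  mo_summ mean_eq dimInf_facts law_box law_ge law_sm inf_moment num_mono)
open Pool.Agent.Results.MP_4a9ea6_nt.TwoPartTwistsX49 (Adm)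

theorem dim_eq (D : ℕ) : dimInf D = Pool.Agent.R413.CK.dimInf D := rfl

theorem corank_ck (D : ℕ) : corank D = Pool.Agent.R413.CK.corank D := rfl

theorem law_mr : law = mr := by
  funext r
  rw [mr_pr]
  rfl

theorem upTo_cls (X : ℕ) : upTo X = clsX X := by
  unfold upTo clsX
  congr 1

theorem card_num (X : ℕ) : ((upTo X).card : ℝ) = (Joint.num (fun _ => True) X : ℝ) := by
  rw [num_clsX, upTo_cls]
  congr 2
  ext D
  simp

theorem prop_num (P : ℕ → Prop) (X : ℕ) :
    proportion P X = (Joint.num P X : ℝ) / (Joint.num (fun _ => True) X : ℝ) := by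
  unfold proportion
  rw [card_num, num_clsX P, upTo_cls]

theorem prop_mono {P Q : ℕ → Prop} (h : ∀ D, Family D → P D → Q D) (X : ℕ) :
    proportion P X ≤ proportion Q X := by
  rw [prop_num, prop_num]
  refine div_le_div_of_nonneg_right ?_ (Nat.cast_nonneg _)
  exact_mod_cast num_mono (Q := P) (R := Q) (fun D h1 h2 => h D h1 h2) X

theorem facts (D : ℕ) (hD : Family D) :
    Module.Finite ℤ (E D).toAffine.Point ∧ Finite {x : SelInf D // x + x = 0} ∧
    Nat.card {x : SelInf D // x + x = 0} = 2 ^ dimInf D ∧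
    2 ^ dimInf D = 2 ^ rank D * Nat.card {x : Sha (E D) // x + x = 0} ∧
    corank D ≤ dimInf D ∧ dimInf D ≤ 2 * corank D ∧
    ((∀ x : SelInf D, x = 0) ↔ corank D = 0) ∧
    ∀ q : ℕ, (∃ f : (Fin q → Pruf) →+ SelInf D, Function.Injective f) → q ≤ dimInf D :=
  ⟨(rank_corank hD).1, dimInf_facts hD⟩

theorem tw_facts (M D : ℕ) (hM : Family M) (hD : Family D) :
    Family (tw M D) ∧ M * D = tw M D * Nat.gcd M D ^ 2 :=
  ⟨Joint.adm_tw hM hD, (Joint.ac_tw hM hD).2⟩

theorem law_pos (r : ℕ) : 0 < law r := by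
  rw [law_mr]
  exact Pool.Agent.R413.CK.mr_pos r

theorem law_sum : HasSum law 1 := by
  rw [law_mr]
  exact mr_hasSum

theorem law_tail (r : ℕ) : 0 < 1 - ∑ i ∈ Finset.range r, law i := by
  have h1 := sum_le_hasSum (Finset.range (r + 1)) (fun i _ => (law_pos i).le) law_sum
  rw [Finset.sum_range_succ] at h1
  have := law_pos r
  linarith

theorem least {T : Finset ℕ} (hT : ∀ M ∈ T, Family M) :
    Tendsto (proportion fun D => ∀ M ∈ T, ∀ x : SelInf (tw M D), x = 0) atTop
      (𝓝 (c ^ T.card)) := by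
  have h1 := law_box hT fun _ => {0}
  have h2 : ∏ M ∈ T, ∑ i ∈ ({0} : Finset ℕ), mr i = c ^ T.card := by
    rw [Finset.sum_singleton, Finset.prod_const, ← law_mr]
    congr 1
    unfold law
    simp
  rw [h2] at h1
  refine h1.congr fun X => ?_
  rw [prop_num]
  congr 2
  refine le_antisymm (num_mono (fun D hD h M hM => ?_) X) (num_mono (fun D hD h M hM => ?_) X)
  · have h3 := (facts (tw M D) (Joint.adm_tw (hT M hM) hD)).2.2.2.2.2.2.1
    exact h3.2 (Finset.mem_singleton.1 (h M hM))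
  · have h3 := (facts (tw M D) (Joint.adm_tw (hT M hM) hD)).2.2.2.2.2.2.1
    exact Finset.mem_singleton.2 (h3.1 (h M hM))

theorem small {T : Finset ℕ} (hT : ∀ M ∈ T, Family M) (ρ : ℕ → ℕ) {ε : ℝ} (hε : 0 < ε) :
    ∀ᶠ X : ℕ in atTop, ∏ M ∈ T, (∑ i ∈ Finset.range (ρ M + 1), law i) - ε ≤
      proportion (fun D => ∀ M ∈ T, dimInf (tw M D) ≤ 2 * ρ M) X := by
  filter_upwards [law_sm hT ρ hε] with X hX
  rw [law_mr]
  refine hX.trans ?_
  rw [← prop_num]
  refine prop_mono (fun D hD h M hM => ?_) X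
  obtain ⟨-, -, -, -, -, h4, -⟩ := facts (tw M D) (Joint.adm_tw (hT M hM) hD)
  have h5 : corank (tw M D) ≤ ρ M := h M hM
  omega

theorem large {T : Finset ℕ} (hT : ∀ M ∈ T, Family M) (ρ : ℕ → ℕ) {ε : ℝ} (hε : 0 < ε) :
    ∀ᶠ X : ℕ in atTop, ∏ M ∈ T, (1 - ∑ i ∈ Finset.range (ρ M), law i) - ε ≤
      proportion (fun D => ∀ M ∈ T, ρ M ≤ dimInf (tw M D)) X := by
  filter_upwards [law_ge hT ρ hε] with X hX
  rw [law_mr]
  refine hX.trans ?_
  rw [← prop_num]
  refine prop_mono (fun D hD h M hM => ?_) X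
  obtain ⟨-, -, -, -, h3, -⟩ := facts (tw M D) (Joint.adm_tw (hT M hM) hD)
  have h5 : ρ M ≤ corank (tw M D) := h M hM
  omega

theorem moments {M : ℕ} (hM : Family M) (m : ℕ) {ε : ℝ} (hε : 0 < ε) :
    ∀ᶠ X : ℕ in atTop,
      ∑' r : ℕ, (r : ℝ) ^ m * law r - ε ≤ avg (fun D => (dimInf (tw M D) : ℝ) ^ m) X ∧
      avg (fun D => (dimInf (tw M D) : ℝ) ^ m) X ≤
        2 ^ m * ∑' r : ℕ, (r : ℝ) ^ m * law r + ε := by
  filter_upwards [inf_moment hM m hε] with X hX
  unfold avg
  rw [card_num, upTo_cls, law_mr]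
  exact hX

theorem summable (m : ℕ) : Summable (fun r : ℕ => (r : ℝ) ^ m * law r) := by
  rw [law_mr]
  exact mo_summ m

theorem average {M : ℕ} (hM : Family M) :
    ∀ᶠ X : ℕ in atTop, 0.764 < avg (fun D => (dimInf (tw M D) : ℝ)) X ∧
      avg (fun D => (dimInf (tw M D) : ℝ)) X < 1.5292 := by
  have h1 : ∑' r : ℕ, (r : ℝ) * mr r = mu := mean_eq
  have hmu := mu_bounds
  obtain ⟨ε, hε, h2, h3⟩ : ∃ ε : ℝ, 0 < ε ∧ 0.764 < mu - ε ∧ 2 * mu + ε < 1.5292 := by
    refine ⟨min ((mu - 0.764) / 2) ((1.5292 - 2 * mu) / 2), ?_, ?_, ?_⟩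
    · refine lt_min ?_ ?_
      · linarith [hmu.1]
      · linarith [hmu.2]
    · have := min_le_left ((mu - 0.764) / 2) ((1.5292 - 2 * mu) / 2)
      linarith [hmu.1]
    · have := min_le_right ((mu - 0.764) / 2) ((1.5292 - 2 * mu) / 2)
      linarith [hmu.2]
  filter_upwards [moments hM 1 hε] with X hX
  simp only [pow_one] at hX
  rw [law_mr, h1] at hX
  exact ⟨by linarith [hX.1], by linarith [hX.2]⟩

theorem hc : 0.4194 < c ∧ c < 0.4195 :=
  ⟨Pool.Agent.Y948.CQ.t_C2.2.2.2.1, Pool.Agent.Y948.CQ.t_C2.2.2.2.2⟩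

end proof

theorem result :
    (∀ M D : ℕ, Family M → Family D → Family (tw M D) ∧ M * D = tw M D * Nat.gcd M D ^ 2) ∧
    (∀ D : ℕ, Family D → Module.Finite ℤ (E D).toAffine.Point ∧
      Finite {x : SelInf D // x + x = 0} ∧
      Nat.card {x : SelInf D // x + x = 0} = 2 ^ dimInf D ∧
      2 ^ dimInf D = 2 ^ rank D * Nat.card {x : Sha (E D) // x + x = 0} ∧
      corank D ≤ dimInf D ∧ dimInf D ≤ 2 * corank D ∧
      ((∀ x : SelInf D, x = 0) ↔ corank D = 0) ∧
      ∀ q : ℕ, (∃ f : (Fin q → Pruf) →+ SelInf D, Function.Injective f) → q ≤ dimInf D) ∧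
    ((∀ r, 0 < law r) ∧ HasSum law 1 ∧ (∀ r, 0 < 1 - ∑ i ∈ Finset.range r, law i) ∧
      (∀ m : ℕ, Summable fun r : ℕ => (r : ℝ) ^ m * law r) ∧ 0.4194 < c ∧ c < 0.4195) ∧
    (∀ T : Finset ℕ, (∀ M ∈ T, Family M) →
      Tendsto (proportion fun D => ∀ M ∈ T, ∀ x : SelInf (tw M D), x = 0) atTop
        (𝓝 (c ^ T.card))) ∧
    (∀ T : Finset ℕ, (∀ M ∈ T, Family M) → ∀ ρ : ℕ → ℕ, ∀ ε : ℝ, 0 < ε → ∀ᶠ X : ℕ in atTop,
      ∏ M ∈ T, (∑ i ∈ Finset.range (ρ M + 1), law i) - ε ≤
        proportion (fun D => ∀ M ∈ T, dimInf (tw M D) ≤ 2 * ρ M) X ∧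
      ∏ M ∈ T, (1 - ∑ i ∈ Finset.range (ρ M), law i) - ε ≤
        proportion (fun D => ∀ M ∈ T, ρ M ≤ dimInf (tw M D)) X) ∧
    (∀ M : ℕ, Family M → ∀ m : ℕ, ∀ ε : ℝ, 0 < ε → ∀ᶠ X : ℕ in atTop,
      ∑' r : ℕ, (r : ℝ) ^ m * law r - ε ≤ avg (fun D => (dimInf (tw M D) : ℝ) ^ m) X ∧
      avg (fun D => (dimInf (tw M D) : ℝ) ^ m) X ≤
        2 ^ m * ∑' r : ℕ, (r : ℝ) ^ m * law r + ε) ∧
    (∀ M : ℕ, Family M → ∀ᶠ X : ℕ in atTop,
      0.764 < avg (fun D => (dimInf (tw M D) : ℝ)) X ∧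
      avg (fun D => (dimInf (tw M D) : ℝ)) X < 1.5292) :=
  ⟨tw_facts, facts, ⟨law_pos, law_sum, law_tail, summable, hc⟩, fun _ hT => least hT,
    fun _ hT ρ _ hε => (small hT ρ hε).and (large hT ρ hε), fun _ hM m _ hε => moments hM m hε,
    fun _ hM => average hM⟩

end Pool.Agent.Results.MP_6073f3_nt.TwoInfinitySelmerX49
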